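import Mathlib

namespace Pool.Agent.Results.MP_7bafff_nt.Lucas

/-- `u` (indexed from `1`) is the Ulam sequence: `u 1 = 1`, `u 2 = 2`, and for `n ≥ 3` the term
`u n` is the least integer greater than `u (n-1)` that is `u i + u j` for exactly one pair of
indices `1 ≤ i < j < n`. -/
def IsUlam (u : ℕ → ℕ) : Prop :=
  u 1 = 1 ∧ u 2 = 2 ∧ ∀ n, 3 ≤ n →
    IsLeast {m | u (n - 1) < m ∧
      ∃! p : ℕ × ℕ, 1 ≤ p.1 ∧ p.1 < p.2 ∧ p.2 < n ∧ u p.1 + u p.2 = m} (u n)

/-- `m` is a term of `u` or a sum of two terms with distinct indices. -/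
def SumAtMostTwo (u : ℕ → ℕ) (m : ℕ) : Prop :=
  (∃ i, 1 ≤ i ∧ u i = m) ∨ ∃ i j, 1 ≤ i ∧ i < j ∧ u i + u j = m

/-- Lucas numbers. -/
def lucas : ℕ → ℕ
  | 0 => 2
  | 1 => 1
  | (n + 2) => lucas (n + 1) + lucas n

def B : ℕ := 0x290000a0000000800a120001480000000280000a40002900000000000000020005000000a0000090000a40a0000000000002000008000028001420005200000a40a0000000000a000000000000000290000a000000000000000280014a000028000004005000000a000001000004005004000a5005200000212050000140000020028000005200014000a000001400000200000800040000148000000001000000005280000000000000000400001000004000290000a4000000014000050000140000020001400005200000800050000000000520001400005000014000042000100000120028000004000010014a00000100140400000000024005080014200012000142400000029000005000280200010800148000029001000000000210000040000100008400029028000000200000a0000280000010002942940000008480000000200000800002002800000520028000001000014000a0000000800850050000008520021000004000090010a4000200014000050000140000420028000001080204a0005205004040040850002800109020000004020014200a50002802402020528000081204084004044a00842120422180501405295e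

def b (x : ℕ) : Bool := Nat.beq (Nat.land (Nat.shiftRight B x) 1) 1

def L : List ℕ :=
  [1, 2, 3, 4, 6, 8, 11, 13, 16, 18, 26, 28, 36, 38, 47, 48, 53, 57, 62, 69, 72, 77, 82, 87, 97,
   99, 102, 106, 114, 126, 131, 138, 145, 148, 155, 175, 177, 180, 182, 189, 197, 206, 209, 219,
   221, 236, 238, 241, 243, 253, 258, 260, 273, 282, 309, 316, 319, 324, 339, 341, 356, 358, 363,
   370, 382, 390, 400, 402, 409, 412, 414, 429, 431, 434, 441, 451, 456, 483, 485, 497, 502, 522,
   524, 544, 546, 566, 568, 585, 602, 605, 607, 612, 624, 627, 646, 668, 673, 685, 688, 690, 695,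
   720, 722, 732, 734, 739, 751, 781, 783, 798, 800, 820, 847, 849, 861, 864, 866, 891, 893, 905,
   927, 949, 983, 986, 991, 1018, 1020, 1023, 1025, 1030, 1032, 1035, 1037, 1052, 1079, 1081, 1101,
   1103, 1125, 1155, 1157, 1164, 1167, 1169, 1186, 1191, 1208, 1230, 1252, 1257, 1296, 1308, 1311,
   1313, 1335, 1338, 1340, 1355, 1360, 1377, 1387, 1389, 1404, 1406, 1428, 1431, 1433, 1462, 1465,
   1470, 1472, 1489, 1492, 1509, 1514, 1516, 1531, 1536, 1538, 1550, 1553, 1594, 1602, 1604, 1616,
   1641, 1643, 1646, 1648, 1660, 1682, 1707, 1709, 1721, 1724, 1748, 1765, 1770, 1790, 1792, 1812,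
   1814, 1834, 1836, 1853, 1856, 1858, 1900, 1902, 1919, 1941, 1944, 1946, 1966, 1968, 1985, 2010,
   2012, 2032, 2034, 2054, 2056, 2090, 2093, 2095, 2112, 2115, 2117, 2134, 2156, 2178, 2247, 2249,
   2252, 2254, 2288, 2327, 2330, 2332, 2354, 2371, 2393, 2418, 2420, 2445, 2447, 2462, 2464, 2481,
   2484, 2486, 2511, 2513, 2525, 2550, 2552, 2572, 2574, 2581, 2584, 2589, 2613, 2616, 2618, 2628,
   2630, 2633, 2635, 2650, 2660, 2662, 2674, 2696, 2721, 2723, 2748, 2750, 2762, 2787, 2789, 2809,
   2811, 2814, 2816, 2831, 2833, 2897, 2899, 2916, 2919, 2921, 2985, 2987, 3029, 3031, 3038, 3041,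
   3043, 3065, 3068, 3070, 3085, 3090, 3092, 3107, 3109, 3131, 3153, 3205, 3207, 3214, 3217, 3219,
   3236, 3239, 3261, 3263, 3288, 3290, 3305, 3368, 3371, 3373, 3390, 3393, 3395, 3415, 3417, 3451,
   3454, 3456, 3473, 3476, 3481, 3483, 3495, 3525, 3527, 3544, 3547, 3549]

def reps (m : ℕ) : List ℕ := L.filter (fun a => Nat.blt (2 * a) m && b (m - a))

theorem hL : L = (List.range 3572).filter b := by decide +kernel

noncomputable def cnt (m : ℕ) (l : List ℕ) : ℕ :=
  List.rec 0 (fun a _ r =>
    Bool.rec 0 (Bool.rec r (Nat.succ r) (b (Nat.sub m a))) (Nat.blt (Nat.add a a) m)) l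

theorem cnt_eq (m : ℕ) (l : List ℕ) (hl : l.Pairwise (· < ·)) :
    cnt m l = (l.filter (fun a => Nat.blt (2 * a) m && b (m - a))).length := by
  induction l with
  | nil => rfl
  | cons a t ih =>
    have hp := List.pairwise_cons.mp hl
    have e : cnt m (a :: t) = Bool.rec 0 (Bool.rec (cnt m t) (Nat.succ (cnt m t)) (b (m - a)))
        (Nat.blt (a + a) m) := rfl
    rw [e, ih hp.2, List.filter_cons, show 2 * a = a + a by omega]
    cases h1 : Nat.blt (a + a) m with
    | false =>
      have h2 : ¬ (a + a < m) := by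
        rw [← Nat.blt_eq, h1]; simp
      have h3 : t.filter (fun a => Nat.blt (2 * a) m && b (m - a)) = [] := by
        rw [List.filter_eq_nil_iff]
        intro x hx
        have := hp.1 x hx
        rw [Bool.and_eq_true, Nat.blt_eq]
        rintro ⟨h4, _⟩
        omega
      simp [h3]
    | true =>
      cases h2 : b (m - a) <;> simp

theorem cnt_L (m : ℕ) : cnt m L = (reps m).length := by
  apply cnt_eq
  rw [hL]
  exact List.pairwise_lt_range.filter _

noncomputable def chk (c : ℕ) : Bool :=
  (List.range 100).all (fun k =>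
    Nat.blt 3571 (100 * c + k + 3) || (b (100 * c + k + 3) == Nat.beq (cnt (100 * c + k + 3) L) 1))

theorem chk0 : chk 0 = true := by decide +kernel
theorem chk1 : chk 1 = true := by decide +kernel
theorem chk2 : chk 2 = true := by decide +kernel
theorem chk3 : chk 3 = true := by decide +kernel
theorem chk4 : chk 4 = true := by decide +kernel
theorem chk5 : chk 5 = true := by decide +kernel
theorem chk6 : chk 6 = true := by decide +kernel
theorem chk7 : chk 7 = true := by decide +kernel
theorem chk8 : chk 8 = true := by decide +kernel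
theorem chk9 : chk 9 = true := by decide +kernel
theorem chk10 : chk 10 = true := by decide +kernel
theorem chk11 : chk 11 = true := by decide +kernel
theorem chk12 : chk 12 = true := by decide +kernel
theorem chk13 : chk 13 = true := by decide +kernel
theorem chk14 : chk 14 = true := by decide +kernel
theorem chk15 : chk 15 = true := by decide +kernel
theorem chk16 : chk 16 = true := by decide +kernel
theorem chk17 : chk 17 = true := by decide +kernel
theorem chk18 : chk 18 = true := by decide +kernel
theorem chk19 : chk 19 = true := by decide +kernel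
theorem chk20 : chk 20 = true := by decide +kernel
theorem chk21 : chk 21 = true := by decide +kernel
theorem chk22 : chk 22 = true := by decide +kernel
theorem chk23 : chk 23 = true := by decide +kernel
theorem chk24 : chk 24 = true := by decide +kernel
theorem chk25 : chk 25 = true := by decide +kernel
theorem chk26 : chk 26 = true := by decide +kernel
theorem chk27 : chk 27 = true := by decide +kernel
theorem chk28 : chk 28 = true := by decide +kernel
theorem chk29 : chk 29 = true := by decide +kernel
theorem chk30 : chk 30 = true := by decide +kernel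
theorem chk31 : chk 31 = true := by decide +kernel
theorem chk32 : chk 32 = true := by decide +kernel
theorem chk33 : chk 33 = true := by decide +kernel
theorem chk34 : chk 34 = true := by decide +kernel
theorem chk35 : chk 35 = true := by decide +kernel

theorem hchk (m : ℕ) (h3 : 3 ≤ m) (hm : m ≤ 3571) : (b m == ((reps m).length == 1)) = true := by
  have hc : chk ((m - 3) / 100) = true := by
    have hlt : (m - 3) / 100 < 36 := by omega
    generalize (m - 3) / 100 = c at hlt
    interval_cases c
    exacts [chk0, chk1, chk2, chk3, chk4, chk5, chk6, chk7, chk8, chk9, chk10, chk11, chk12, chk13, chk14, chk15, chk16, chk17, chk18, chk19, chk20, chk21, chk22, chk23, chk24, chk25, chk26, chk27, chk28, chk29, chk30, chk31, chk32, chk33, chk34, chk35]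
  have h2 := List.all_eq_true.mp hc ((m - 3) % 100) (List.mem_range.mpr (by omega))
  rw [show 100 * ((m - 3) / 100) + (m - 3) % 100 + 3 = m by omega] at h2
  rw [Bool.or_eq_true, Nat.blt_eq] at h2
  rcases h2 with h2 | h2
  · omega
  · rw [cnt_L] at h2
    have e : Nat.beq (reps m).length 1 = ((reps m).length == 1) := by
      rw [Bool.eq_iff_iff, Nat.beq_eq, beq_iff_eq]
    rw [e] at h2
    exact h2

theorem hrep : reps 3571 = [] := by decide +kernel

theorem hb : b 0 = false ∧ b 1 = true ∧ b 2 = true ∧ b 3571 = false := by decide +kernel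

theorem mem_reps (m a : ℕ) (hm : m ≤ 3571) :
    a ∈ reps m ↔ 2 * a < m ∧ b a = true ∧ b (m - a) = true := by
  unfold reps
  rw [List.mem_filter, hL, List.mem_filter, List.mem_range]
  simp only [Bool.and_eq_true, Nat.blt_eq]
  constructor
  · rintro ⟨⟨_, h2⟩, h3, h4⟩
    exact ⟨h3, h2, h4⟩
  · rintro ⟨h1, h2, h3⟩
    exact ⟨⟨by omega, h2⟩, h1, h3⟩

theorem nodup_reps (m : ℕ) : (reps m).Nodup := by
  unfold reps
  rw [hL]
  exact (List.nodup_range.filter _).filter _

theorem len_one (m : ℕ) : (reps m).length = 1 ↔ ∃! a, a ∈ reps m := by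
  rw [← List.toFinset_card_of_nodup (nodup_reps m), Finset.card_eq_one_iff_existsUnique]
  simp only [List.mem_toFinset]

section
variable {u : ℕ → ℕ} (h : IsUlam u)
include h

theorem step (n : ℕ) (hn : 1 ≤ n) : u n < u (n + 1) := by
  rcases Nat.eq_or_lt_of_le hn with h1 | h1
  · subst h1
    have a1 := h.1
    have a2 := h.2.1
    simp only [Nat.reduceAdd]
    omega
  · have := (h.2.2 (n + 1) (by omega)).1.1
    simpa using this

theorem smono (i j : ℕ) (hi : 1 ≤ i) (hij : i < j) : u i < u j := by
  induction j, hij using Nat.le_induction with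
  | base => exact step h i hi
  | succ k hk ih => exact lt_trans ih (step h k (by omega))

theorem ge_idx (n : ℕ) (hn : 1 ≤ n) : n ≤ u n := by
  induction n, hn using Nat.le_induction with
  | base => rw [h.1]
  | succ k hk ih => have := step h k hk; omega

theorem lt_of (i j : ℕ) (hj : 1 ≤ j) (hij : u i < u j) (hi : 1 ≤ i) : i < j := by
  by_contra hc
  rcases Nat.eq_or_lt_of_le (not_lt.mp hc) with h1 | h1
  · subst h1; omega
  · have := smono h j i hj h1; omega

theorem inj (i j : ℕ) (hi : 1 ≤ i) (hj : 1 ≤ j) (hij : u i = u j) : i = j := by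
  rcases lt_trichotomy i j with h1 | h1 | h1
  · have := smono h i j hi h1; omega
  · exact h1
  · have := smono h j i hj h1; omega

theorem lemA (m : ℕ) (hm : 3 ≤ m) :
    (∃ i, 1 ≤ i ∧ u i = m) ↔ ∃! p : ℕ × ℕ, 1 ≤ p.1 ∧ p.1 < p.2 ∧ u p.1 + u p.2 = m := by
  classical
  have hex : ∃ n, 1 ≤ n ∧ m ≤ u n := ⟨m, by omega, ge_idx h m (by omega)⟩
  obtain ⟨hn1, hn2⟩ := Nat.find_spec hex
  have hmin : ∀ k, k < Nat.find hex → ¬ (1 ≤ k ∧ m ≤ u k) := fun k hk => Nat.find_min hex hk
  generalize Nat.find hex = n at hn1 hn2 hmin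
  have a1 := h.1
  have a2 := h.2.1
  have hn3 : 3 ≤ n := by
    by_contra hc
    have : n = 1 ∨ n = 2 := by omega
    rcases this with rfl | rfl <;> omega
  have hprev : u (n - 1) < m := by
    have := hmin (n - 1) (by omega)
    by_contra hc
    exact this ⟨by omega, by omega⟩
  have hbd : ∀ p : ℕ × ℕ, (1 ≤ p.1 ∧ p.1 < p.2 ∧ p.2 < n ∧ u p.1 + u p.2 = m) ↔
      (1 ≤ p.1 ∧ p.1 < p.2 ∧ u p.1 + u p.2 = m) := by
    intro p
    constructor
    · rintro ⟨x, y, _, z⟩
      exact ⟨x, y, z⟩
    · rintro ⟨x, y, z⟩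
      refine ⟨x, y, ?_, z⟩
      have := ge_idx h p.1 x
      exact lt_of h p.2 n hn1 (by omega) (by omega)
  have hl := h.2.2 n hn3
  constructor
  · rintro ⟨i, hi, rfl⟩
    have hin : i = n := by
      have h1 : ¬ i < n := fun hc => hmin i hc ⟨hi, le_rfl⟩
      rcases Nat.eq_or_lt_of_le (not_lt.mp h1) with h2 | h2
      · exact h2.symm
      · have := smono h n i hn1 h2; omega
    subst hin
    exact (existsUnique_congr hbd).mp hl.1.2
  · intro hR
    have : u n ≤ m := hl.2 ⟨hprev, (existsUnique_congr hbd).mpr hR⟩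
    exact ⟨n, hn1, by omega⟩

theorem lemB (m : ℕ) :
    (∃! p : ℕ × ℕ, 1 ≤ p.1 ∧ p.1 < p.2 ∧ u p.1 + u p.2 = m) ↔
      ∃! a, 2 * a < m ∧ (∃ i, 1 ≤ i ∧ u i = a) ∧ (∃ j, 1 ≤ j ∧ u j = m - a) := by
  constructor
  · rintro ⟨p, ⟨h1, h2, h3⟩, hu⟩
    have := smono h p.1 p.2 h1 h2
    refine ⟨u p.1, ⟨by omega, ⟨p.1, h1, rfl⟩, ⟨p.2, by omega, by omega⟩⟩, ?_⟩
    rintro a ⟨ha, ⟨i, hi, rfl⟩, ⟨j, hj, hj2⟩⟩
    have hij : i < j := lt_of h i j hj (by omega) hi
    have := hu (i, j) ⟨hi, hij, by simp only; omega⟩
    rw [← this]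
  · rintro ⟨a, ⟨ha, ⟨i, hi, rfl⟩, ⟨j, hj, hj2⟩⟩, hu⟩
    have hij : i < j := lt_of h i j hj (by omega) hi
    refine ⟨(i, j), ⟨hi, hij, by simp only; omega⟩, ?_⟩
    rintro ⟨x, y⟩ ⟨h1, h2, h3⟩
    simp only at h1 h2 h3
    have hs := smono h x y h1 h2
    have e1 := hu (u x) ⟨by omega, ⟨x, h1, rfl⟩, ⟨y, by omega, by omega⟩⟩
    have ex : x = i := inj h x i h1 hi e1
    have ey : y = j := inj h y j (by omega) hj (by omega)
    rw [ex, ey]

theorem mem_iff (m : ℕ) : m ≤ 3571 → ((∃ i, 1 ≤ i ∧ u i = m) ↔ b m = true) := by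
  induction m using Nat.strong_induction_on with
  | _ m ih =>
    intro hm
    obtain ⟨b0, b1, b2, _⟩ := hb
    by_cases h3 : m < 3
    · have : m = 0 ∨ m = 1 ∨ m = 2 := by omega
      rcases this with rfl | rfl | rfl
      · rw [b0]
        constructor
        · rintro ⟨i, hi, e⟩
          have := ge_idx h i hi
          omega
        · intro e; cases e
      · exact ⟨fun _ => b1, fun _ => ⟨1, le_rfl, h.1⟩⟩
      · exact ⟨fun _ => b2, fun _ => ⟨2, by omega, h.2.1⟩⟩
    · have hc := hchk m (by omega) hm
      have hc2 : b m = true ↔ (reps m).length = 1 := by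
        rw [beq_iff_eq] at hc
        rw [hc, beq_iff_eq]
      rw [hc2, len_one, lemA h m (by omega), lemB h m]
      apply existsUnique_congr
      intro a
      rw [mem_reps m a hm]
      constructor
      · rintro ⟨h1, h2, h4⟩
        have ha : 1 ≤ a := by
          obtain ⟨i, hi, e⟩ := h2
          have := ge_idx h i hi
          omega
        exact ⟨h1, (ih a (by omega) (by omega)).mp h2, (ih (m - a) (by omega) (by omega)).mp h4⟩
      · rintro ⟨h1, h2, h4⟩
        have ha : 1 ≤ a := by
          by_contra hc0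
          have : a = 0 := by omega
          rw [this, b0] at h2
          cases h2
        exact ⟨h1, (ih a (by omega) (by omega)).mpr h2, (ih (m - a) (by omega) (by omega)).mpr h4⟩

end

theorem result (u : ℕ → ℕ) (h : IsUlam u) :
    lucas 17 = 3571 ∧ ¬ SumAtMostTwo u (lucas 17) ∧
      ¬ ((∀ n, 1 ≤ n → SumAtMostTwo u (Nat.fib n)) ∧ ∀ n, SumAtMostTwo u (lucas n)) := by
  have e : lucas 17 = 3571 := by decide +kernel
  have key : ¬ SumAtMostTwo u (lucas 17) := by
    rw [e]
    rintro (h1 | ⟨i, j, hi, hij, hs⟩)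
    · have := (mem_iff h 3571 le_rfl).mp h1
      rw [hb.2.2.2] at this
      cases this
    · have hlt := smono h i j hi hij
      have : u i ∈ reps 3571 := by
        rw [mem_reps 3571 _ le_rfl]
        exact ⟨by omega, (mem_iff h _ (by omega)).mp ⟨i, hi, rfl⟩,
          (mem_iff h _ (by omega)).mp ⟨j, by omega, by omega⟩⟩
      rw [hrep] at this
      cases this
  exact ⟨e, key, fun hh => key (hh.2 17)⟩

end Pool.Agent.Results.MP_7bafff_nt.Lucas
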